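import Pool.Agent.E8helper30.RG.Stm4
import Pool.Agent.E8helper30.RG.Ind
import Pool.Agent.E8helper87.RG.Grow

/-!
# Project RG4 (helper30), MP_df8ddc_co: growth of the balls in a sparse graph without short cycles
-/

set_option autoImplicit false

namespace Pool.Agent.E8helper83.RG

open SimpleGraph Pool.Agent.E8helper30.RG
open Pool.Agent.E8helper87.RG (path_unique nb_unique)

open scoped Classical

variable {n : ℕ} {G : SimpleGraph (Fin n)} {S : Finset (Fin n)} {v0 : Fin n} {R : ℕ}

/-- `p` is a path of length `r` inside `S` -/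
def IsP (S : Finset (Fin n)) {v0 x : Fin n} (r : ℕ) (p : G.Walk v0 x) : Prop :=
  p.IsPath ∧ p.length = r ∧ ∀ y ∈ p.support, y ∈ S

/-- the vertices reached from `v0` by a path of length `r` inside `S` -/
noncomputable def Lv (G : SimpleGraph (Fin n)) (S : Finset (Fin n)) (v0 : Fin n) (r : ℕ) :
    Finset (Fin n) := Finset.univ.filter fun x => ∃ p : G.Walk v0 x, IsP S r p

lemma mem_Lv {r : ℕ} {x : Fin n} : x ∈ Lv G S v0 r ↔ ∃ p : G.Walk v0 x, IsP S r p := by
  simp [Lv]

/-- the possible continuations of a path -/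
noncomputable def ch (S : Finset (Fin n)) {x : Fin n} (p : G.Walk v0 x) : Finset (Fin n) :=
  (S.filter fun w => G.Adj x w).erase (p.getVert (p.length - 1))

lemma ch_adj {x w : Fin n} {p : G.Walk v0 x} (hw : w ∈ ch S p) : G.Adj x w := by
  unfold ch at hw
  rw [Finset.mem_erase, Finset.mem_filter] at hw
  exact hw.2.2

lemma ch_spec (hc : ∀ (v : Fin n) (w : G.Walk v v), w.IsCycle → 2 * R < w.length) {r : ℕ}
    {x w : Fin n} {p : G.Walk v0 x} (hp : IsP S r p) (hr : r + 1 ≤ R) (hw : w ∈ ch S p) :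
    IsP S (r + 1) (p.concat (ch_adj hw)) := by
  have hw' := hw
  unfold ch at hw'
  rw [Finset.mem_erase, Finset.mem_filter] at hw'
  obtain ⟨h1, h2, h3⟩ := hp
  refine ⟨h1.concat (fun hws => hw'.1 (nb_unique hc p h1 (by omega) w hws hw'.2.2)) _, ?_, ?_⟩
  · rw [Walk.length_concat, h2]
  · intro y hy
    rw [Walk.support_concat] at hy
    simp only [List.mem_append, List.mem_singleton] at hy
    rcases hy with hy | hy
    · exact h3 y hy
    · rw [hy]; exact hw'.2.1

lemma card_ch_ge {x : Fin n} (p : G.Walk v0 x) : dg G S x ≤ (ch S p).card + 1 := by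
  unfold ch dg
  have := Finset.pred_card_le_card_erase (s := S.filter fun w => G.Adj x w)
    (a := p.getVert (p.length - 1))
  omega

lemma card_ch_zero {x : Fin n} {p : G.Walk v0 x} (hp : IsP S 0 p) : dg G S x ≤ (ch S p).card := by
  unfold ch dg
  rw [Finset.erase_eq_of_notMem]
  rw [Finset.mem_filter]
  rintro ⟨-, h⟩
  obtain ⟨h1, h2, h3⟩ := hp
  have h4 : p.getVert (p.length - 1) = x := by
    rw [Walk.getVert_of_length_le]
    omega
  rw [h4] at h
  exact h.ne rfl

lemma card_ch_le {r : ℕ} (hr : 1 ≤ r) {x : Fin n} {p : G.Walk v0 x} (hp : IsP S r p) :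
    (ch S p).card ≤ dg G S x - 1 := by
  obtain ⟨h1, h2, h3⟩ := hp
  unfold ch dg
  rw [Finset.card_erase_of_mem]
  rw [Finset.mem_filter]
  refine ⟨h3 _ (p.getVert_mem_support _), ?_⟩
  have h4 := p.adj_getVert_succ (i := p.length - 1) (by omega)
  rw [show p.length - 1 + 1 = p.length by omega, Walk.getVert_length] at h4
  exact h4.symm

/-- every path of positive length is a continuation -/
lemma last_step {r : ℕ} {w : Fin n} {q : G.Walk v0 w} (hq : IsP S (r + 1) q) :
    ∃ (x : Fin n) (p : G.Walk v0 x) (h : G.Adj x w), q = p.concat h ∧ IsP S r p ∧ w ∈ ch S p := by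
  obtain ⟨h1, h2, h3⟩ := hq
  have hn : ¬ q.Nil := by
    rw [Walk.nil_iff_length_eq]
    omega
  have hadj := Walk.adj_penultimate hn
  have hcd := Walk.concat_dropLast hadj
  have hP : (q.dropLast.concat hadj).IsPath := by rw [hcd]; exact h1
  have hl : q.dropLast.length = r := by
    have h4 := congrArg Walk.length hcd
    rw [Walk.length_concat, h2] at h4
    omega
  have hws : w ∉ q.dropLast.support := by
    rw [Walk.isPath_def, Walk.support_concat] at hP
    intro hmem
    have h5 := List.nodup_append.1 hP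
    exact h5.2.2 w hmem w (by simp) rfl
  have hsub : ∀ y ∈ q.dropLast.support, y ∈ S := by
    intro y hy
    apply h3
    rw [← hcd, Walk.support_concat]
    simp only [List.mem_append, List.mem_singleton]
    exact Or.inl hy
  refine ⟨q.penultimate, q.dropLast, hadj, hcd.symm, ⟨h1.dropLast, hl, hsub⟩, ?_⟩
  unfold ch
  rw [Finset.mem_erase, Finset.mem_filter]
  refine ⟨fun h => hws ?_, h3 w q.end_mem_support, hadj⟩
  have h6 : ∀ z, z = q.dropLast.getVert (q.dropLast.length - 1) → z ∈ q.dropLast.support := by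
    rintro z rfl
    exact q.dropLast.getVert_mem_support _
  exact h6 w h

lemma uniq (hc : ∀ (v : Fin n) (w : G.Walk v v), w.IsCycle → 2 * R < w.length) {r s : ℕ}
    (hr : r ≤ R) (hs : s ≤ R) {x : Fin n} {p q : G.Walk v0 x} (hp : IsP S r p) (hq : IsP S s q) :
    p = q :=
  path_unique hc p q hp.1 hq.1 (by rw [hp.2.1]; exact hr) (by rw [hq.2.1]; exact hs)

/-- the number of paths is bounded above -/
lemma upper (hc : ∀ (v : Fin n) (w : G.Walk v v), w.IsCycle → 2 * R < w.length)
    (hd : ∀ v ∈ S, 2 ≤ dg G S v) (hv0 : v0 ∈ S) : ∀ r, 1 ≤ r → r ≤ R →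
    (Lv G S v0 r).card ≤ 2 + ∑ x ∈ (Finset.range r).biUnion (Lv G S v0), (dg G S x - 2) := by
  intro r
  induction r with
  | zero => intro h; omega
  | succ r ih =>
    intro _ hr
    rcases Nat.eq_zero_or_pos r with h0 | h0
    · subst h0
      have h1 : Lv G S v0 (0 + 1) ⊆ S.filter fun w => G.Adj v0 w := by
        intro w hw
        obtain ⟨q, hq⟩ := mem_Lv.1 hw
        obtain ⟨x, p, h, -, hp, hch⟩ := last_step hq
        have hx : v0 = x := Walk.eq_of_length_eq_zero hp.2.1
        subst hx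
        rw [Finset.mem_filter]
        exact ⟨hq.2.2 w q.end_mem_support, h⟩
      have h2 : v0 ∈ (Finset.range (0 + 1)).biUnion (Lv G S v0) := by
        rw [Finset.mem_biUnion]
        refine ⟨0, by simp, mem_Lv.2 ⟨Walk.nil, Walk.IsPath.nil, rfl, ?_⟩⟩
        simpa using hv0
      have h3 : dg G S v0 - 2 ≤ ∑ x ∈ (Finset.range (0 + 1)).biUnion (Lv G S v0), (dg G S x - 2) :=
        Finset.single_le_sum (f := fun x => dg G S x - 2) (fun _ _ => Nat.zero_le _) h2
      have h4 := Finset.card_le_card h1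
      have h5 : (S.filter fun w => G.Adj v0 w).card = dg G S v0 := rfl
      have h6 := hd v0 hv0
      omega
    · have ih' := ih h0 (by omega)
      have hch : ∀ x : Fin n, ∃ N : Finset (Fin n), x ∈ Lv G S v0 r →
          (N.card ≤ dg G S x - 1 ∧ ∀ (p : G.Walk v0 x), IsP S r p → ch S p ⊆ N) := by
        intro x
        by_cases hx : x ∈ Lv G S v0 r
        · obtain ⟨p, hp⟩ := mem_Lv.1 hx
          refine ⟨ch S p, fun _ => ⟨card_ch_le h0 hp, fun q hq => ?_⟩⟩
          rw [uniq hc (by omega) (by omega) hq hp]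
        · exact ⟨∅, fun h => absurd h hx⟩
      choose N hN using hch
      have h1 : Lv G S v0 (r + 1) ⊆ (Lv G S v0 r).biUnion N := by
        intro w hw
        obtain ⟨q, hq⟩ := mem_Lv.1 hw
        obtain ⟨x, p, h, -, hp, hchw⟩ := last_step hq
        rw [Finset.mem_biUnion]
        have hx : x ∈ Lv G S v0 r := mem_Lv.2 ⟨p, hp⟩
        exact ⟨x, hx, (hN x hx).2 p hp hchw⟩
      have hS : ∀ x ∈ Lv G S v0 r, x ∈ S := by
        intro x hx
        obtain ⟨p, hp⟩ := mem_Lv.1 hx
        exact hp.2.2 x p.end_mem_support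
      have h2 : (Lv G S v0 (r + 1)).card ≤ (Lv G S v0 r).card +
          ∑ x ∈ Lv G S v0 r, (dg G S x - 2) := by
        calc (Lv G S v0 (r + 1)).card ≤ ((Lv G S v0 r).biUnion N).card := Finset.card_le_card h1
          _ ≤ ∑ x ∈ Lv G S v0 r, (N x).card := Finset.card_biUnion_le
          _ ≤ ∑ x ∈ Lv G S v0 r, (1 + (dg G S x - 2)) := by
              apply Finset.sum_le_sum
              intro x hx
              have h3 := (hN x hx).1
              have h4 := hd x (hS x hx)
              omega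
          _ = _ := by rw [Finset.sum_add_distrib, Finset.sum_const, smul_eq_mul, mul_one]
      have h3 : (Finset.range (r + 1)).biUnion (Lv G S v0) =
          (Finset.range r).biUnion (Lv G S v0) ∪ Lv G S v0 r := by
        rw [Finset.range_add_one, Finset.biUnion_insert, Finset.union_comm]
      have h4 : Disjoint ((Finset.range r).biUnion (Lv G S v0)) (Lv G S v0 r) := by
        rw [Finset.disjoint_left]
        intro x hx hx'
        rw [Finset.mem_biUnion] at hx
        obtain ⟨i, hi, hx⟩ := hx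
        rw [Finset.mem_range] at hi
        obtain ⟨p, hp⟩ := mem_Lv.1 hx
        obtain ⟨q, hq⟩ := mem_Lv.1 hx'
        have h5 := uniq hc (by omega) (by omega) hp hq
        have h6 := hp.2.1
        rw [h5, hq.2.1] at h6
        omega
      rw [h3, Finset.sum_union h4]
      omega

lemma getVert_concat_le {x w : Fin n} (p : G.Walk v0 x) (h : G.Adj x w) {m : ℕ}
    (hm : m ≤ p.length) : (p.concat h).getVert m = p.getVert m := by
  rw [Walk.concat_eq_append, Walk.getVert_append]
  split_ifs with h1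
  · rfl
  · have h2 : m = p.length := by omega
    subst h2
    rw [Nat.sub_self, Walk.getVert_zero, Walk.getVert_length]

/-- the path passes through `x` at time `r` -/
def Dsc (G : SimpleGraph (Fin n)) (S : Finset (Fin n)) (v0 : Fin n) (r : ℕ) (x : Fin n) (i : ℕ)
    (y : Fin n) : Prop := ∃ q : G.Walk v0 y, IsP S (r + i) q ∧ q.getVert r = x

lemma branch (hc : ∀ (v : Fin n) (w : G.Walk v v), w.IsCycle → 2 * R < w.length)
    (hd : ∀ v ∈ S, 2 ≤ dg G S v) {r : ℕ} {x : Fin n} (hx : x ∈ Lv G S v0 r) : ∀ i, r + i ≤ R →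
    (∃ y₁ y₂, y₁ ≠ y₂ ∧ Dsc G S v0 r x i y₁ ∧ Dsc G S v0 r x i y₂) ∨
    (∃ (y : Fin n) (q : G.Walk v0 y), IsP S (r + i) q ∧ q.getVert r = x ∧
      ∀ m, r < m → m < r + i → dg G S (q.getVert m) = 2) := by
  -- continuation
  have hext : ∀ i, r + i + 1 ≤ R → ∀ (y : Fin n) (q : G.Walk v0 y), IsP S (r + i) q →
      q.getVert r = x → ∀ w (hw : w ∈ ch S q), IsP S (r + (i + 1)) (q.concat (ch_adj hw)) ∧
        (q.concat (ch_adj hw)).getVert r = x := by
    intro i hi y q hq hqr w hw
    refine ⟨ch_spec hc hq hi hw, ?_⟩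
    rw [getVert_concat_le _ _ (by rw [hq.2.1]; omega), hqr]
  have hne : ∀ i, ∀ (y : Fin n) (q : G.Walk v0 y), IsP S (r + i) q → ∃ w, w ∈ ch S q := by
    intro i y q hq
    have h1 := card_ch_ge (S := S) q
    have h2 := hd y (hq.2.2 y q.end_mem_support)
    have h3 : 0 < (ch S q).card := by omega
    exact Finset.card_pos.1 h3
  intro i
  induction i with
  | zero =>
    intro _
    right
    obtain ⟨p, hp⟩ := mem_Lv.1 hx
    refine ⟨x, p, hp, ?_, fun m h1 h2 => by omega⟩
    rw [← hp.2.1, Walk.getVert_length]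
  | succ i ih =>
    intro hi
    rcases ih (by omega) with ⟨y₁, y₂, hy, ⟨q₁, hq₁, hr₁⟩, ⟨q₂, hq₂, hr₂⟩⟩ | ⟨y, q, hq, hqr, hm⟩
    · left
      obtain ⟨w₁, hw₁⟩ := hne i y₁ q₁ hq₁
      obtain ⟨w₂, hw₂⟩ := hne i y₂ q₂ hq₂
      have e₁ := hext i (by omega) y₁ q₁ hq₁ hr₁ w₁ hw₁
      have e₂ := hext i (by omega) y₂ q₂ hq₂ hr₂ w₂ hw₂
      refine ⟨w₁, w₂, ?_, ⟨_, e₁⟩, ⟨_, e₂⟩⟩
      rintro rfl
      have h1 := uniq hc (by omega) (by omega) e₁.1 e₂.1
      have h2 := congrArg Walk.penultimate h1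
      rw [Walk.penultimate_concat, Walk.penultimate_concat] at h2
      exact hy h2
    · by_cases h2 : 2 ≤ (ch S q).card
      · left
        obtain ⟨w₁, hw₁, w₂, hw₂, hw⟩ := Finset.one_lt_card.1 (by omega : 1 < (ch S q).card)
        exact ⟨w₁, w₂, hw, ⟨_, hext i (by omega) y q hq hqr w₁ hw₁⟩,
          ⟨_, hext i (by omega) y q hq hqr w₂ hw₂⟩⟩
      · right
        obtain ⟨w, hw⟩ := hne i y q hq
        have e := hext i (by omega) y q hq hqr w hw
        refine ⟨w, _, e.1, e.2, fun m h3 h4 => ?_⟩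
        rw [getVert_concat_le _ _ (by rw [hq.2.1]; omega)]
        rcases Nat.lt_or_ge m (r + i) with h5 | h5
        · exact hm m h3 h5
        · have h6 : m = q.length := by rw [hq.2.1]; omega
          rw [h6, Walk.getVert_length]
          have h7 := card_ch_ge (S := S) q
          have h8 := hd y (hq.2.2 y q.end_mem_support)
          omega

lemma lower (hc : ∀ (v : Fin n) (w : G.Walk v v), w.IsCycle → 2 * R < w.length)
    (hd : ∀ v ∈ S, 2 ≤ dg G S v) {L : ℕ} (hL : 1 ≤ L)
    (hpath : ∀ (u v : Fin n) (p : G.Walk u v), p.IsPath → 1 ≤ p.length →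
      (∀ w ∈ p.support, w ∈ S) → (∀ w ∈ p.support.tail, dg G S w = 2) → p.length < L)
    {r : ℕ} (hr : r + (L + 1) ≤ R) :
    2 * (Lv G S v0 r).card ≤ (Lv G S v0 (r + (L + 1))).card := by
  have key : ∀ x : Fin n, ∃ N : Finset (Fin n), x ∈ Lv G S v0 r →
      (2 ≤ N.card ∧ ∀ y ∈ N, Dsc G S v0 r x (L + 1) y) := by
    intro x
    by_cases hx : x ∈ Lv G S v0 r
    · rcases branch hc hd hx (L + 1) hr with ⟨y₁, y₂, hy, h1, h2⟩ | ⟨y, q, hq, hqr, hm⟩
      · refine ⟨{y₁, y₂}, fun _ => ⟨by rw [Finset.card_pair hy], fun y hy' => ?_⟩⟩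
        rw [Finset.mem_insert, Finset.mem_singleton] at hy'
        rcases hy' with rfl | rfl
        · exact h1
        · exact h2
      · exfalso
        have hP : ((q.drop r).take L).IsPath := (hq.1.drop r).take L
        have hlen : ((q.drop r).take L).length = L := by
          rw [Walk.take_length, Walk.drop_length, hq.2.1]
          omega
        have hgv : ∀ m ≤ L, ((q.drop r).take L).getVert m = q.getVert (r + m) := by
          intro m hmL
          rw [Walk.take_getVert, Walk.drop_getVert, min_eq_right hmL]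
        have h1 := hpath _ _ _ hP (by rw [hlen]; exact hL) ?_ ?_
        · omega
        · intro w hw
          obtain ⟨m, hm1, hm2⟩ := Walk.mem_support_iff_exists_getVert.1 hw
          rw [hlen] at hm2
          rw [hgv m hm2] at hm1
          rw [← hm1]
          exact hq.2.2 _ (q.getVert_mem_support _)
        · intro w hw
          have hw' : w ∈ ((q.drop r).take L).support := List.mem_of_mem_tail hw
          obtain ⟨m, hm1, hm2⟩ := Walk.mem_support_iff_exists_getVert.1 hw'
          rw [hlen] at hm2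
          have hm0 : m ≠ 0 := by
            rintro rfl
            rw [Walk.getVert_zero] at hm1
            have hnd := hP.support_nodup
            rw [← Walk.cons_tail_support, List.nodup_cons] at hnd
            exact hnd.1 (hm1.symm ▸ hw)
          rw [hgv m hm2] at hm1
          rw [← hm1]
          exact hm _ (by omega) (by omega)
    · exact ⟨∅, fun h => absurd h hx⟩
  choose N hN using key
  have hdisj : ((Lv G S v0 r : Finset (Fin n)) : Set (Fin n)).PairwiseDisjoint N := by
    intro x hx y hy hxy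
    rw [Function.onFun, Finset.disjoint_left]
    intro w hwx hwy
    rw [Finset.mem_coe] at hx hy
    obtain ⟨p, hp, hpx⟩ := (hN x hx).2 w hwx
    obtain ⟨q, hq, hqy⟩ := (hN y hy).2 w hwy
    have h1 := uniq hc hr hr hp hq
    apply hxy
    rw [← hpx, ← hqy, h1]
  have hsub : (Lv G S v0 r).biUnion N ⊆ Lv G S v0 (r + (L + 1)) := by
    intro w hw
    rw [Finset.mem_biUnion] at hw
    obtain ⟨x, hx, hwx⟩ := hw
    obtain ⟨p, hp, -⟩ := (hN x hx).2 w hwx
    exact mem_Lv.2 ⟨p, hp⟩
  calc 2 * (Lv G S v0 r).card = ∑ x ∈ Lv G S v0 r, 2 := by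
        rw [Finset.sum_const, smul_eq_mul, mul_comm]
    _ ≤ ∑ x ∈ Lv G S v0 r, (N x).card := Finset.sum_le_sum fun x hx => (hN x hx).1
    _ = ((Lv G S v0 r).biUnion N).card := (Finset.card_biUnion hdisj).symm
    _ ≤ _ := Finset.card_le_card hsub

theorem t_UGROW : S_UGROW := by
  intro n L x j G S hS hL hd hdarts hpath hc
  rcases Nat.eq_zero_or_pos j with hj | hj
  · subst hj
    rw [pow_zero]
    omega
  obtain ⟨v0, hv0⟩ := hS
  have hc' : ∀ (v : Fin n) (w : G.Walk v v), w.IsCycle → 2 * (j * (L + 1)) < w.length := by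
    intro v w hw
    rw [← mul_assoc]
    exact hc v w hw
  have hR : 1 ≤ j * (L + 1) := Nat.mul_pos hj (by omega)
  have h1 := upper (v0 := v0) hc' hd hv0 (j * (L + 1)) hR le_rfl
  have h2 : ∀ i ≤ j, 2 ^ i ≤ (Lv G S v0 (i * (L + 1))).card := by
    intro i
    induction i with
    | zero =>
      intro _
      rw [pow_zero, zero_mul]
      apply Finset.card_pos.2
      exact ⟨v0, mem_Lv.2 ⟨Walk.nil, Walk.IsPath.nil, rfl, by simpa using hv0⟩⟩
    | succ i ih =>
      intro hi
      have h3 := ih (by omega)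
      have h4 : i * (L + 1) + (L + 1) ≤ j * (L + 1) := by
        rw [← Nat.succ_mul]
        exact Nat.mul_le_mul_right _ hi
      have h5 := lower (v0 := v0) hc' hd hL hpath h4
      rw [pow_succ, Nat.succ_mul]
      omega
  have h3 := h2 j le_rfl
  have h4 : ∑ y ∈ (Finset.range (j * (L + 1))).biUnion (Lv G S v0), (dg G S y - 2) ≤
      ∑ y ∈ S, (dg G S y - 2) := by
    apply Finset.sum_le_sum_of_subset
    intro y hy
    rw [Finset.mem_biUnion] at hy
    obtain ⟨i, -, hy⟩ := hy
    obtain ⟨p, hp⟩ := mem_Lv.1 hy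
    exact hp.2.2 y p.end_mem_support
  have h5 : ∑ y ∈ S, (dg G S y - 2) + 2 * S.card = (darts G S).card := by
    rw [darts_dg, mul_comm, ← smul_eq_mul, ← Finset.sum_const, ← Finset.sum_add_distrib]
    refine Finset.sum_congr rfl fun y hy => ?_
    have := hd y hy
    omega
  omega

end Pool.Agent.E8helper83.RG
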